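import Pool.Agent.helper91.SI.Spec

/-!
# Project SI, row CNV (second prover)
-/

set_option autoImplicit false

namespace Pool.Agent.helper91.SI

open Pool.Agent.helper20.IG (IsIndepDom IsISet iGraph)
open Finset

/-- the cycle on `ZMod n` -/
def CNV_H (n : ℕ) : SimpleGraph (ZMod n) where
  Adj u v := u ≠ v ∧ (v = u + 1 ∨ u = v + 1)
  symm := ⟨fun _ _ h => ⟨h.1.symm, h.2.symm⟩⟩
  loopless := ⟨fun _ h => h.1 rfl⟩

/-- the i-sets -/
def CNV_S (n : ℕ) [NeZero n] (x : ZMod n) : Finset (ZMod n) :=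
  univ.filter (fun y => (y - (x + 1)).val % 3 = 0)

theorem CNV_mem (n : ℕ) [NeZero n] (x y : ZMod n) : y ∈ CNV_S n x ↔ (y - (x + 1)).val % 3 = 0 := by
  simp [CNV_S]

theorem CNV_cast_ne (n j : ℕ) (h1 : 1 ≤ j) (h2 : j < n) : (j : ZMod n) ≠ 0 := by
  rw [Ne, ZMod.natCast_eq_zero_iff]
  intro h
  have := Nat.le_of_dvd (by omega) h
  omega

theorem CNV_one (n : ℕ) (hn : 5 ≤ n) : (1 : ZMod n) ≠ 0 := by
  have := CNV_cast_ne n 1 (by omega) (by omega); simpa using this
theorem CNV_two (n : ℕ) (hn : 5 ≤ n) : (2 : ZMod n) ≠ 0 := by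
  have := CNV_cast_ne n 2 (by omega) (by omega); exact_mod_cast this
theorem CNV_three (n : ℕ) (hn : 5 ≤ n) : (3 : ZMod n) ≠ 0 := by
  have := CNV_cast_ne n 3 (by omega) (by omega); exact_mod_cast this

theorem CNV_adj (n : ℕ) (hn : 5 ≤ n) (u v : ZMod n) : (CNV_H n).Adj u v ↔ (v = u + 1 ∨ u = v + 1) := by
  constructor
  · intro h; exact h.2
  · intro h
    refine ⟨?_, h⟩
    rintro rfl
    have h1 := CNV_one n hn
    rcases h with h | h
    · exact h1 (by linear_combination -h)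
    · exact h1 (by linear_combination -h)

/-- value of the successor -/
theorem CNV_val (n : ℕ) [NeZero n] (hn : 5 ≤ n) (z : ZMod n) :
    (z.val + 1 < n ∧ (z + 1).val = z.val + 1) ∨ (z.val + 1 = n ∧ (z + 1).val = 0) := by
  have h1 : (1 : ZMod n).val = 1 := by
    rw [ZMod.val_one_eq_one_mod, Nat.mod_eq_of_lt (by omega)]
  have h2 := ZMod.val_add z 1
  rw [h1] at h2
  have h3 := ZMod.val_lt z
  rcases Nat.lt_or_ge (z.val + 1) n with h | h
  · left
    refine ⟨h, ?_⟩
    rw [h2, Nat.mod_eq_of_lt h]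
  · right
    have h4 : z.val + 1 = n := by omega
    refine ⟨h4, ?_⟩
    rw [h2, h4, Nat.mod_self]

theorem CNV_ind (n : ℕ) [NeZero n] (m : ℕ) (hn : 5 ≤ n) (hm : n = 3 * m + 2) (x y : ZMod n)
    (h1 : y ∈ CNV_S n x) (h2 : y + 1 ∈ CNV_S n x) : False := by
  rw [CNV_mem] at h1 h2
  have h3 : y + 1 - (x + 1) = (y - (x + 1)) + 1 := by ring
  rw [h3] at h2
  rcases CNV_val n hn (y - (x + 1)) with ⟨h4, h5⟩ | ⟨h4, h5⟩ <;> rw [h5] at h2 <;> omega

theorem CNV_dom (n : ℕ) [NeZero n] (m : ℕ) (hn : 5 ≤ n) (hm : n = 3 * m + 2) (x y : ZMod n)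
    (h1 : y ∉ CNV_S n x) : y + 1 ∈ CNV_S n x ∨ y - 1 ∈ CNV_S n x := by
  rw [CNV_mem] at h1
  rw [CNV_mem, CNV_mem]
  have h3 : y + 1 - (x + 1) = (y - (x + 1)) + 1 := by ring
  have h6 : (y - 1 - (x + 1)) + 1 = y - (x + 1) := by ring
  rw [h3]
  have h7 := CNV_val n hn (y - (x + 1))
  have h8 := CNV_val n hn (y - 1 - (x + 1))
  rw [h6] at h8
  omega

theorem CNV_indepDom (n : ℕ) [NeZero n] (m : ℕ) (hn : 5 ≤ n) (hm : n = 3 * m + 2) (x : ZMod n) :
    IsIndepDom (CNV_H n) (CNV_S n x) := by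
  constructor
  · intro u hu v hv huv
    rw [CNV_adj n hn] at huv
    rcases huv with h | h
    · subst h; exact CNV_ind n m hn hm x u hu hv
    · subst h; exact CNV_ind n m hn hm x v hv hu
  · intro y hy
    rcases CNV_dom n m hn hm x y hy with h | h
    · exact ⟨y + 1, h, (CNV_adj n hn _ _).mpr (Or.inr rfl)⟩
    · exact ⟨y - 1, h, (CNV_adj n hn _ _).mpr (Or.inl (by ring))⟩

theorem CNV_card_le (n : ℕ) [NeZero n] (m : ℕ) (hm : n = 3 * m + 2) (x : ZMod n) :
    (CNV_S n x).card ≤ m + 1 := by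
  have h : CNV_S n x ⊆ (range (m + 1)).image (fun j : ℕ => x + 1 + ((3 * j : ℕ) : ZMod n)) := by
    intro y hy
    rw [CNV_mem] at hy
    rw [mem_image]
    have hlt := ZMod.val_lt (y - (x + 1))
    refine ⟨(y - (x + 1)).val / 3, by rw [mem_range]; omega, ?_⟩
    have h1 : 3 * ((y - (x + 1)).val / 3) = (y - (x + 1)).val := by omega
    show x + 1 + ((3 * ((y - (x + 1)).val / 3) : ℕ) : ZMod n) = y
    rw [h1, ZMod.natCast_zmod_val]
    ring
  calc (CNV_S n x).card ≤ _ := card_le_card h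
    _ ≤ (range (m + 1)).card := card_image_le
    _ = m + 1 := card_range _

theorem CNV_lbd (n : ℕ) [NeZero n] (hn : 5 ≤ n) (T : Finset (ZMod n)) (hT : IsIndepDom (CNV_H n) T) :
    n ≤ 3 * T.card := by
  have h : (univ : Finset (ZMod n)) ⊆ T.biUnion (fun s => {s, s + 1, s - 1}) := by
    intro y _
    rw [mem_biUnion]
    by_cases hy : y ∈ T
    · exact ⟨y, hy, by simp⟩
    · obtain ⟨u, hu, hadj⟩ := hT.2 y hy
      rw [CNV_adj n hn] at hadj
      refine ⟨u, hu, ?_⟩
      rcases hadj with h | h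
      · subst h; simp
      · subst h; simp
  have h1 := card_le_card h
  rw [card_univ, ZMod.card] at h1
  have h2 : (T.biUnion (fun s => ({s, s + 1, s - 1} : Finset (ZMod n)))).card ≤ T.card * 3 :=
    card_biUnion_le_card_mul _ _ _ (fun s _ => card_le_three)
  omega

theorem CNV_iset (n : ℕ) [NeZero n] (m : ℕ) (hn : 5 ≤ n) (hm : n = 3 * m + 2) (x : ZMod n) :
    IsISet (CNV_H n) (CNV_S n x) := by
  refine ⟨CNV_indepDom n m hn hm x, fun T hT => ?_⟩
  have h1 := CNV_lbd n hn T hT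
  have h2 := CNV_card_le n m hm x
  omega

/-- `x` is the only vertex with both neighbours in `S x` -/
theorem CNV_uniq (n : ℕ) [NeZero n] (m : ℕ) (hn : 5 ≤ n) (hm : n = 3 * m + 2) (x w : ZMod n)
    (h1 : w - 1 ∈ CNV_S n x) (h2 : w + 1 ∈ CNV_S n x) : w = x := by
  rw [CNV_mem] at h1 h2
  have e1 : (w - 1 - (x + 1)) + 1 = w - (x + 1) := by ring
  have e2 : w + 1 - (x + 1) = (w - (x + 1)) + 1 := by ring
  rw [e2] at h2
  have h3 := CNV_val n hn (w - 1 - (x + 1))
  have h4 := CNV_val n hn (w - (x + 1))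
  rw [e1] at h3
  have h5 : (w - (x + 1)).val + 1 = n := by omega
  have h6 : ((((w - (x + 1)).val + 1 : ℕ)) : ZMod n) = 0 := by rw [h5]; exact ZMod.natCast_self n
  rw [Nat.cast_add, ZMod.natCast_zmod_val, Nat.cast_one] at h6
  linear_combination h6

theorem CNV_pm (n : ℕ) [NeZero n] (m : ℕ) (hn : 5 ≤ n) (hm : n = 3 * m + 2) (x : ZMod n) :
    x + 1 ∈ CNV_S n x ∧ x - 1 ∈ CNV_S n x := by
  constructor
  · rw [CNV_mem]
    simp
  · rw [CNV_mem]
    have h : x - 1 - (x + 1) = ((3 * m : ℕ) : ZMod n) := by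
      have h1 : ((3 * m + 2 : ℕ) : ZMod n) = 0 := by rw [← hm]; exact ZMod.natCast_self n
      push_cast at h1 ⊢
      linear_combination -h1
    rw [h, ZMod.val_natCast, Nat.mod_eq_of_lt (show 3 * m < n by omega)]
    omega

theorem CNV_inj (n : ℕ) [NeZero n] (m : ℕ) (hn : 5 ≤ n) (hm : n = 3 * m + 2) (x y : ZMod n)
    (h : CNV_S n x = CNV_S n y) : x = y := by
  have h1 := CNV_pm n m hn hm x
  rw [h] at h1
  exact CNV_uniq n m hn hm y x h1.2 h1.1

/-- classification -/
theorem CNV_class (n : ℕ) [NeZero n] (m : ℕ) (hn : 5 ≤ n) (hm : n = 3 * m + 2) (T : Finset (ZMod n))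
    (hT : IsISet (CNV_H n) T) : ∃ x, T = CNV_S n x := by
  have hlow := CNV_lbd n hn T hT.1
  have hup : T.card ≤ m + 1 := (hT.2 _ (CNV_indepDom n m hn hm 0)).trans (CNV_card_le n m hm 0)
  have hcard : T.card = m + 1 := by omega
  set χ : ZMod n → ℕ := fun y => if y ∈ T then 1 else 0 with hχ
  have hχ1 : ∀ y, y ∈ T → χ y = 1 := fun y hy => by simp [hχ, hy]
  have hχ0 : ∀ y, y ∉ T → χ y = 0 := fun y hy => by simp [hχ, hy]
  have hχle : ∀ y, χ y ≤ 1 := fun y => by
    by_cases hy : y ∈ T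
    · rw [hχ1 y hy]
    · rw [hχ0 y hy]; omega
  have hχmem : ∀ y, χ y = 1 → y ∈ T := fun y hy => by
    by_contra h
    rw [hχ0 y h] at hy
    omega
  have hsum : ∑ y, χ y = T.card := by
    simp [hχ]
  have hs1 : ∑ y : ZMod n, χ (y + 1) = T.card := by
    rw [← hsum]
    exact Equiv.sum_comp (Equiv.addRight (1 : ZMod n)) χ
  have hs2 : ∑ y : ZMod n, χ (y - 1) = T.card := by
    rw [← hsum]
    exact Equiv.sum_comp (Equiv.subRight (1 : ZMod n)) χ
  have hind : ∀ y, y ∈ T → y + 1 ∉ T := fun y hy h =>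
    hT.1.1 y hy (y + 1) h ((CNV_adj n hn _ _).mpr (Or.inl rfl))
  have hc1 : ∀ y, 1 ≤ χ (y - 1) + χ y + χ (y + 1) := by
    intro y
    by_cases hy : y ∈ T
    · have := hχ1 y hy; omega
    · obtain ⟨u, hu, hadj⟩ := hT.1.2 y hy
      rw [CNV_adj n hn] at hadj
      have hu1 := hχ1 u hu
      rcases hadj with h | h
      · have : y - 1 = u := by rw [h]; ring
        rw [this]; omega
      · rw [← h]; omega
  have htot : ∑ y : ZMod n, (χ (y - 1) + χ y + χ (y + 1)) = n + 1 := by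
    rw [sum_add_distrib, sum_add_distrib, hs1, hs2, hsum]; omega
  -- a vertex with two
  have hex : ∃ x, 2 ≤ χ (x - 1) + χ x + χ (x + 1) := by
    by_contra hno
    push Not at hno
    have : ∑ y : ZMod n, (χ (y - 1) + χ y + χ (y + 1)) ≤ ∑ y : ZMod n, 1 :=
      sum_le_sum (fun y _ => by have := hno y; omega)
    rw [htot] at this
    simp [ZMod.card] at this
  obtain ⟨x, hx⟩ := hex
  have hother : ∀ y, y ≠ x → χ (y - 1) + χ y + χ (y + 1) = 1 := by
    intro y hyx
    by_contra hne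
    have h2 : 2 ≤ χ (y - 1) + χ y + χ (y + 1) := by have := hc1 y; omega
    have h3 : ∑ z : ZMod n, (1 + (if z = x then 1 else 0) + (if z = y then 1 else 0)) ≤
        ∑ z : ZMod n, (χ (z - 1) + χ z + χ (z + 1)) := by
      apply sum_le_sum
      intro z _
      by_cases hz : z = x
      · subst hz
        rw [if_pos rfl, if_neg hyx.symm]; omega
      · by_cases hz2 : z = y
        · subst hz2
          rw [if_neg hz, if_pos rfl]; omega
        · rw [if_neg hz, if_neg hz2]; exact hc1 z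
    rw [htot, sum_add_distrib, sum_add_distrib] at h3
    simp [ZMod.card] at h3
  have hxT : x ∉ T := by
    intro h
    have a1 : χ (x + 1) = 0 := hχ0 _ (hind x h)
    have a2 : χ (x - 1) = 0 := by
      apply hχ0
      intro h'
      have := hind _ h'
      rw [sub_add_cancel] at this
      exact this h
    have a3 := hχ1 x h
    omega
  have hx0 := hχ0 x hxT
  have hxp : χ (x + 1) = 1 := by
    have := hχle (x - 1); have := hχle (x + 1); omega
  refine ⟨x, ?_⟩
  -- go around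
  have key : ∀ j : ℕ, (j < n → χ (x + 1 + (j : ZMod n)) = if j % 3 = 0 then 1 else 0) ∧
      (j + 1 < n → χ (x + 1 + ((j + 1 : ℕ) : ZMod n)) = if (j + 1) % 3 = 0 then 1 else 0) := by
    intro j
    induction j with
    | zero =>
      constructor
      · intro _
        simpa using hxp
      · intro _
        have h1 : x + 1 + 1 ∉ T := hind _ (hχmem _ hxp)
        have h2 := hχ0 _ h1
        simpa using h2
    | succ j ih =>
      refine ⟨ih.2, ?_⟩
      intro hj
      have h1 := ih.1 (by omega)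
      have h2 := ih.2 (by omega)
      have hne : x + 1 + ((j + 1 : ℕ) : ZMod n) ≠ x := by
        intro h
        apply CNV_cast_ne n (j + 2) (by omega) (by omega)
        push_cast at h ⊢
        linear_combination h
      have h3 := hother _ hne
      have e1 : x + 1 + ((j + 1 : ℕ) : ZMod n) - 1 = x + 1 + (j : ZMod n) := by push_cast; ring
      have e2 : x + 1 + ((j + 1 : ℕ) : ZMod n) + 1 = x + 1 + ((j + 1 + 1 : ℕ) : ZMod n) := by
        push_cast; ring
      rw [e1, e2, h1, h2] at h3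
      have h4 : j % 3 = 0 ∨ j % 3 = 1 ∨ j % 3 = 2 := by omega
      rcases h4 with h4 | h4 | h4
      · rw [if_pos h4, if_neg (by omega)] at h3
        rw [if_neg (by omega)]; omega
      · rw [if_neg (by omega), if_neg (by omega)] at h3
        rw [if_pos (by omega)]; omega
      · rw [if_neg (by omega), if_pos (by omega)] at h3
        rw [if_neg (by omega)]; omega
  ext y
  rw [CNV_mem]
  have h1 := (key (y - (x + 1)).val).1 (ZMod.val_lt _)
  rw [ZMod.natCast_zmod_val] at h1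
  have h2 : x + 1 + (y - (x + 1)) = y := by ring
  rw [h2] at h1
  constructor
  · intro hy
    rw [hχ1 y hy] at h1
    by_contra h
    rw [if_neg h] at h1
    omega
  · intro h
    rw [if_pos h] at h1
    exact hχmem y h1

/-- the slide -/
theorem CNV_slide (n : ℕ) [NeZero n] (m : ℕ) (hn : 5 ≤ n) (hm : n = 3 * m + 2) (x : ZMod n) :
    CNV_S n (x + 3) = insert (x + 2) ((CNV_S n x).erase (x + 1)) := by
  ext y
  rw [mem_insert, mem_erase, CNV_mem, CNV_mem]
  -- four values `y - (x + 4) + 1 = y - (x + 3)`, ...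
  have e1 : (y - (x + 3 + 1)) + 1 = y - (x + 3) := by ring
  have e2 : (y - (x + 3)) + 1 = y - (x + 2) := by ring
  have e3 : (y - (x + 2)) + 1 = y - (x + 1) := by ring
  have h1 := CNV_val n hn (y - (x + 3 + 1))
  have h2 := CNV_val n hn (y - (x + 3))
  have h3 := CNV_val n hn (y - (x + 2))
  rw [e1] at h1
  rw [e2] at h2
  rw [e3] at h3
  have h4 : y = x + 2 ↔ (y - (x + 2)).val = 0 := by
    rw [ZMod.val_eq_zero, sub_eq_zero]
  have h5 : y = x + 1 ↔ (y - (x + 1)).val = 0 := by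
    rw [ZMod.val_eq_zero, sub_eq_zero]
  rw [Ne, h4, h5]
  omega

theorem CNV_edge (n : ℕ) [NeZero n] (m : ℕ) (hn : 5 ≤ n) (hm : n = 3 * m + 2) (x y u v : ZMod n)
    (hu : u ∈ CNV_S n x) (hv : v ∈ CNV_S n y) (huv : v = u + 1)
    (h : CNV_S n y = insert v ((CNV_S n x).erase u)) : y = x + 3 := by
  have h1 := CNV_one n hn
  have h2 := CNV_two n hn
  have h3 := CNV_three n hn
  have hu1 : u - 1 ∉ CNV_S n x := by
    intro h'
    apply CNV_ind n m hn hm x (u - 1) h'
    rw [sub_add_cancel]; exact hu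
  have hy1 : u - 1 ∉ CNV_S n y := by
    rw [h, mem_insert, mem_erase]
    rintro (h' | h')
    · apply h2
      rw [huv] at h'
      linear_combination -h'
    · exact hu1 h'.2
  have hy0 : u ∉ CNV_S n y := by
    rw [h, mem_insert, mem_erase]
    rintro (h' | h')
    · apply h1
      rw [huv] at h'
      linear_combination -h'
    · exact h'.1 rfl
  have hd := CNV_dom n m hn hm y (u - 1) hy1
  rw [sub_add_cancel] at hd
  have hd2 : u - 1 - 1 ∈ CNV_S n y := hd.resolve_left hy0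
  rw [h, mem_insert, mem_erase] at hd2
  have hd3 : u - 1 - 1 ∈ CNV_S n x := by
    rcases hd2 with h' | h'
    · exfalso
      apply h3
      rw [huv] at h'
      linear_combination -h'
    · exact h'.2
  have hx : u - 1 = x := CNV_uniq n m hn hm x (u - 1) hd3 (by rw [sub_add_cancel]; exact hu)
  have hux : u = x + 1 := by rw [← hx]; ring
  subst hux
  have hv2 : v = x + 2 := by rw [huv]; ring
  subst hv2
  rw [← CNV_slide n m hn hm x] at h
  exact CNV_inj n m hn hm _ _ h

theorem CNV_iadj (n : ℕ) [NeZero n] (m : ℕ) (hn : 5 ≤ n) (hm : n = 3 * m + 2) (x y : ZMod n) :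
    (iGraph (CNV_H n)).Adj ⟨CNV_S n x, CNV_iset n m hn hm x⟩ ⟨CNV_S n y, CNV_iset n m hn hm y⟩ ↔
      (y = x + 3 ∨ x = y + 3) := by
  have fwd : ∀ x y : ZMod n, y = x + 3 →
      (iGraph (CNV_H n)).Adj ⟨CNV_S n x, CNV_iset n m hn hm x⟩ ⟨CNV_S n y, CNV_iset n m hn hm y⟩ := by
    intro x y hxy
    refine ⟨?_, x + 1, (CNV_pm n m hn hm x).1, x + 2, ?_, ?_, ?_⟩
    · intro h
      have h' : CNV_S n x = CNV_S n y := congrArg Subtype.val h
      have := CNV_inj n m hn hm _ _ h'
      apply CNV_three n hn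
      rw [hxy] at this
      linear_combination -this
    · show x + 2 ∈ CNV_S n y
      rw [hxy, CNV_slide n m hn hm x]
      exact mem_insert_self _ _
    · rw [CNV_adj n hn]; left; ring
    · show CNV_S n y = _
      rw [hxy]
      exact CNV_slide n m hn hm x
  constructor
  · rintro ⟨hne, u, hu, v, hv, huv, hY⟩
    rw [CNV_adj n hn] at huv
    have hu' : u ∈ CNV_S n x := hu
    have hv' : v ∈ CNV_S n y := hv
    have hY' : CNV_S n y = insert v ((CNV_S n x).erase u) := hY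
    rcases huv with h | h
    · left
      exact CNV_edge n m hn hm x y u v hu' hv' h hY'
    · right
      apply CNV_edge n m hn hm y x v u hv' hu' h
      have hvx : v ∉ CNV_S n x := by
        intro h'
        apply CNV_ind n m hn hm x v h'
        rw [← h]; exact hu'
      rw [hY', erase_insert (by simp [hvx]), insert_erase hu']
  · rintro (h | h)
    · exact fwd x y h
    · exact (fwd y x h).symm

theorem CNV_main (n : ℕ) [NeZero n] (m : ℕ) (hn : 5 ≤ n) (hm : n = 3 * m + 2) :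
    Nonempty (iGraph (CNV_H n) ≃g CNV_H n) := by
  have hcop : Nat.Coprime 3 n := by
    rw [hm]
    have : Nat.Coprime 3 2 := by decide
    simpa using this
  set t : (ZMod n)ˣ := ZMod.unitOfCoprime 3 hcop with ht
  have htv : (t : ZMod n) = 3 := by
    rw [ht, ZMod.coe_unitOfCoprime]; norm_num
  set F : ZMod n → {S : Finset (ZMod n) // IsISet (CNV_H n) S} :=
    fun i => ⟨CNV_S n (t * i), CNV_iset n m hn hm (t * i)⟩ with hF
  have hbij : Function.Bijective F := by
    constructor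
    · intro i j hij
      have h' : CNV_S n (t * i) = CNV_S n (t * j) := congrArg Subtype.val hij
      have h2 := CNV_inj n m hn hm _ _ h'
      exact (Units.mul_right_inj t).mp h2
    · rintro ⟨T, hT⟩
      obtain ⟨x, hx⟩ := CNV_class n m hn hm T hT
      refine ⟨t⁻¹ * x, ?_⟩
      apply Subtype.ext
      show CNV_S n (t * (t⁻¹ * x)) = T
      rw [hx, Units.mul_inv_cancel_left]
  refine ⟨(RelIso.symm ⟨Equiv.ofBijective F hbij, ?_⟩)⟩
  intro i j
  show (iGraph (CNV_H n)).Adj (F i) (F j) ↔ _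
  rw [hF]
  show (iGraph (CNV_H n)).Adj ⟨CNV_S n (t * i), CNV_iset n m hn hm (t * i)⟩
    ⟨CNV_S n (t * j), CNV_iset n m hn hm (t * j)⟩ ↔ _
  rw [CNV_iadj n m hn hm, CNV_adj n hn]
  have aux : ∀ i j : ZMod n, (t : ZMod n) * j = t * i + 3 ↔ j = i + 1 := by
    intro i j
    constructor
    · intro h
      apply (Units.mul_right_inj t).mp
      rw [h, mul_add, htv]; ring
    · intro h
      rw [h, mul_add, htv]; ring
  rw [aux, aux]

theorem CNV_circ (n : ℕ) : Nonempty (SimpleGraph.circulantGraph ({1} : Set (ZMod n)) ≃g CNV_H n) := by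
  refine ⟨⟨Equiv.refl (ZMod n), ?_⟩⟩
  intro a b
  show (CNV_H n).Adj a b ↔ (SimpleGraph.circulantGraph {1}).Adj a b
  rw [SimpleGraph.circulantGraph_adj]
  constructor
  · rintro ⟨h1, h2 | h2⟩
    · refine ⟨h1, Or.inr ?_⟩
      rw [h2]
      simp
    · refine ⟨h1, Or.inl ?_⟩
      rw [h2]
      simp
  · rintro ⟨h1, h2 | h2⟩
    · refine ⟨h1, Or.inr ?_⟩
      have h3 := Set.mem_singleton_iff.mp h2
      rw [← h3]
      ring
    · refine ⟨h1, Or.inl ?_⟩
      have h3 := Set.mem_singleton_iff.mp h2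
      rw [← h3]
      ring

theorem CNV (hTRF : TRF_stmt) : CNV_stmt := by
  intro n hn hmod
  obtain ⟨m, hm⟩ : ∃ m, n = 3 * m + 2 := ⟨n / 3, by omega⟩
  have : NeZero n := ⟨by omega⟩
  have hiso : Nonempty (SimpleGraph.cycleGraph n ≃g CNV_H n) := by
    obtain ⟨k, rfl⟩ : ∃ k, n = k + 1 := ⟨n - 1, by omega⟩
    rw [SimpleGraph.cycleGraph_eq_circulantGraph]
    exact CNV_circ (k + 1)
  obtain ⟨e⟩ := hiso
  obtain ⟨e2⟩ := hTRF _ _ _ _ ⟨e⟩
  obtain ⟨e3⟩ := CNV_main n m hn hm
  exact ⟨(e2.trans e3).trans e.symm⟩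

end Pool.Agent.helper91.SI
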